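import Pool.Agent.TH687.WS.Conv
import Pool.Agent.H567.Nec.Count

/-!
# The explicit shape of the determinants of a chain
-/

set_option autoImplicit false
set_option linter.unusedSectionVars false

namespace Pool.Agent.Y530.BI

open Finset MvPolynomial Pool.Agent.H567.Nec Pool.Agent.TH687.WS

universe u v w

section chain

variable {K : Type u} [Field K] {S : Type w} [CommRing S] [Algebra K S]

lemma Ext_pad {Q : Set S} {V W : Submodule K S} {n : ℕ} (hQ : Q.Nonempty) (h : Ext Q V n W)
    (l : ℕ) : Ext Q V (n + l) W := by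
  obtain ⟨p, hp⟩ := hQ
  induction l with
  | zero => exact h
  | succ l ih =>
    have h1 := Ext.step ih W.zero_mem hp
    have h2 : W ⊔ Submodule.span K {p * (0 : S)} = W := by
      rw [mul_zero, Submodule.span_zero_singleton, sup_bot_eq]
    rw [h2] at h1
    exact h1

/-- A chain of `n` steps yields determinants of order `n + 1` of the following shape. -/
lemma det_of_ext' {Q : Set S} {n : ℕ} {W : Submodule K S}
    (h : Ext Q (Submodule.span K {(1 : S)}) n W) :
    ∃ (p : Fin n → S) (C : Fin n → Fin (n + 1) → K), (∀ i, p i ∈ Q) ∧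
      ∀ w ∈ W, ∃ c : Fin (n + 1) → K,
      (mk (fun j => algebraMap K S (c j)) (fun i j => (if j = i.castSucc then 1 else 0) +
        p i * algebraMap K S (C i j))).det = w := by
  induction h with
  | refl =>
    refine ⟨fun i => i.elim0, fun i => i.elim0, fun i => i.elim0, ?_⟩
    intro w hw
    obtain ⟨c, rfl⟩ := Submodule.mem_span_singleton.mp hw
    refine ⟨fun _ => c, ?_⟩
    rw [Matrix.det_fin_one, Pool.Agent.TH687.WS.mk_zero, Algebra.smul_def, mul_one]
  | @step n W f p _ hf hp ih =>
    obtain ⟨q, C, hq, hW⟩ := ih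
    obtain ⟨cf, hcf⟩ := hW f hf
    refine ⟨Fin.cons p q, Fin.cons (Fin.cons 0 cf : Fin (n + 2) → K)
      (fun i => (Fin.cons 0 (C i) : Fin (n + 2) → K)), ?_, ?_⟩
    · intro i
      refine Fin.cases ?_ (fun i' => ?_) i
      · rw [Fin.cons_zero]; exact hp
      · rw [Fin.cons_succ]; exact hq i'
    · intro w hw
      obtain ⟨w₀, hw₀, w₁, hw₁, rfl⟩ := Submodule.mem_sup.mp hw
      obtain ⟨a, rfl⟩ := Submodule.mem_span_singleton.mp hw₁
      obtain ⟨c, hc⟩ := hW w₀ hw₀
      refine ⟨Fin.cons a (-c), ?_⟩
      have e : (fun j : Fin (n + 2) => algebraMap K S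
          ((Fin.cons a (-c) : Fin (n + 2) → K) j)) =
          Fin.cons (algebraMap K S a) (-(fun j => algebraMap K S (c j))) := by
        funext j
        refine Fin.cases ?_ (fun j' => ?_) j
        · rw [Fin.cons_zero, Fin.cons_zero]
        · rw [Fin.cons_succ, Fin.cons_succ, Pi.neg_apply, Pi.neg_apply, map_neg]
      have e2 : (fun (i : Fin (n + 1)) (j : Fin (n + 2)) => (if j = i.castSucc then (1 : S) else 0) +
          (Fin.cons p q : Fin (n + 1) → S) i *
          algebraMap K S ((Fin.cons (Fin.cons 0 cf : Fin (n + 2) → K)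
            (fun i => (Fin.cons 0 (C i) : Fin (n + 2) → K)) :
              Fin (n + 1) → Fin (n + 2) → K) i j)) =
          (Fin.cons (Fin.cons 1 (p • (fun j => algebraMap K S (cf j))) : Fin (n + 2) → S)
            (fun i => (Fin.cons 0 (fun j => (if j = i.castSucc then (1 : S) else 0) +
              q i * algebraMap K S (C i j)) : Fin (n + 2) → S)) :
              Fin (n + 1) → Fin (n + 2) → S) := by
        funext i j
        refine Fin.cases ?_ (fun i' => ?_) i
        · rw [Fin.cons_zero, Fin.cons_zero, Fin.cons_zero]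
          refine Fin.cases ?_ (fun j' => ?_) j
          · rw [Fin.cons_zero, Fin.cons_zero]
            simp
          · rw [Fin.cons_succ, Fin.cons_succ]
            simp [Fin.succ_ne_zero]
        · rw [Fin.cons_succ, Fin.cons_succ, Fin.cons_succ]
          refine Fin.cases ?_ (fun j' => ?_) j
          · rw [Fin.cons_zero, Fin.cons_zero]
            have h0 : (0 : Fin (n + 2)) ≠ i'.succ.castSucc := by
              intro h0
              have := congrArg Fin.val h0
              simp at this
            rw [if_neg h0]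
            simp
          · rw [Fin.cons_succ, Fin.cons_succ]
            have h0 : (j'.succ = i'.succ.castSucc) ↔ (j' = i'.castSucc) := by
              rw [← Fin.succ_castSucc, Fin.succ_inj]
            simp only [h0]
      rw [e, e2, det_step, det_mk_smul, hcf, hc, Algebra.smul_def]
      ring

end chain

section circ

variable {F : Type u} {σ : Type v} [Field F] {β : Type w} {Φ : Circuit F σ}

lemma aeval_pi_apply (q : σ → β → F) (p : MvPolynomial σ F) (b : β) :
    (aeval q p : β → F) b = eval (fun v => q v b) p := by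
  have h1 : ((Pi.evalAlgHom F (fun _ : β => F) b).comp (aeval q : MvPolynomial σ F →ₐ[F] (β → F))) =
      (aeval (fun v => q v b) : MvPolynomial σ F →ₐ[F] F) := by
    apply MvPolynomial.algHom_ext
    intro v
    simp
  have h2 := DFunLike.congr_fun h1 p
  simpa [MvPolynomial.aeval_eq_eval] using h2

open Classical in
/-- **The form of the functions of a weakly skew circuit.**  The inputs outside of `T` do not depend
on `b`. -/
theorem exists_form [Nonempty σ] (Φ : Circuit F σ) (hΦ : Φ.WeaklySkew) (o : Fin Φ.N)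
    (T : Finset σ) (q : σ → β → F) (hq : ∀ v, v ∉ T → ∀ b b', q v b = q v b') (e : ℕ)
    (he : (univ.filter (fun a => Φ.Sub o a ∧ Circuit.TSrc Φ T a)).card ≤ e) :
    ∃ (p : Fin e → σ) (C : Fin e → Fin (e + 1) → F) (c : Fin (e + 1) → F),
      ∀ b, (mk c (fun i j => (if j = i.castSucc then 1 else 0) + q (p i) b * C i j)).det =
        eval (fun v => q v b) (Φ.value o) := by
  classical
  rcases isEmpty_or_nonempty β with hβ | ⟨⟨b₀⟩⟩
  · exact ⟨fun _ => Classical.arbitrary σ, fun _ _ => 0, fun _ => 0, fun b => hβ.elim b⟩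
  obtain ⟨χ⟩ := hΦ.exists_choice
  obtain ⟨W, n, hn, hext, hW⟩ := TH687.WS.good_sub χ q o (Submodule.span F {(1 : β → F)}) 1
    (Submodule.mem_span_singleton_self _)
  have hcard : (univ.filter (fun a => Φ.Sub o a ∧ IsVar Φ q a)).card ≤
      (univ.filter (fun a => Φ.Sub o a ∧ Circuit.TSrc Φ T a)).card := by
    apply Finset.card_le_card
    intro a ha
    simp only [mem_filter, mem_univ, true_and] at ha ⊢
    refine ⟨ha.1, ?_⟩
    obtain ⟨v, hv, hqv⟩ := ha.2
    refine ⟨v, ?_, hv⟩
    by_contra hvT
    apply hqv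
    refine ⟨q v b₀, ?_⟩
    funext b
    rw [Pi.algebraMap_apply]
    exact hq v hvT b₀ b
  obtain ⟨l, hl⟩ : ∃ l, e = n + l := ⟨e - n, by omega⟩
  have hext' := Ext_pad (Set.range_nonempty q) hext l
  rw [← hl] at hext'
  obtain ⟨p, C, hp, hdet⟩ := det_of_ext' hext'
  choose p' hp' using hp
  obtain ⟨c, hc⟩ := hdet _ (hW _ ⟨o, Circuit.Reu.self χ o, rfl⟩)
  refine ⟨p', C, c, fun b => ?_⟩
  rw [one_mul, Pool.Agent.TH687.WS.val] at hc
  have h1 := congrFun hc b
  rw [aeval_pi_apply] at h1
  rw [← h1]
  have h2 := RingHom.map_det (Pi.evalRingHom (fun _ : β => F) b)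
    (mk (fun j => algebraMap F (β → F) (c j)) (fun i j => (if j = i.castSucc then 1 else 0) +
        p i * algebraMap F (β → F) (C i j)))
  rw [Pi.evalRingHom_apply] at h2
  rw [h2]
  congr 1
  ext i j
  rw [RingHom.mapMatrix_apply, Matrix.map_apply]
  refine Fin.cases ?_ (fun i' => ?_) i
  · rw [Pool.Agent.TH687.WS.mk_zero, Pool.Agent.TH687.WS.mk_zero, Pi.evalRingHom_apply,
      Pi.algebraMap_apply, Algebra.algebraMap_self_apply]
  · rw [Pool.Agent.TH687.WS.mk_succ, Pool.Agent.TH687.WS.mk_succ, Pi.evalRingHom_apply,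
      Pi.add_apply, Pi.mul_apply, Pi.algebraMap_apply, Algebra.algebraMap_self_apply, hp']
    split_ifs <;> rfl

end circ

end Pool.Agent.Y530.BI
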