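import Pool.Agent.H567.Nec.Core
import Pool.Agent.H567.PermCount

/-!
# Spanning by points with coordinates `0` and `1`
-/

set_option autoImplicit false
set_option linter.unusedSectionVars false

namespace Pool.Agent.Y530.BI

open Finset Equiv Pool.Agent.H567.Nec

/-- number of permutations with prescribed values -/
lemma exists_card_prescribed_dvd (B : Type*) [Fintype B] [DecidableEq B] (ι : Type*) [Fintype ι]
    [DecidableEq ι] (R₀ : B → ι) (hR₀ : Function.Injective R₀) :
    ∃ N : ℕ, (∀ R L : B → ι, Function.Injective R → Function.Injective L →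
      (univ.filter (fun σ : Perm ι => ∀ c, σ (R c) = L c)).card = N) ∧
      N ∣ (Fintype.card ι).factorial := by
  classical
  obtain ⟨N, hN, _⟩ := Pool.Agent.H567.exists_card_prescribed (Fintype.card B) ι
  have hN' : ∀ R L : B → ι, Function.Injective R → Function.Injective L →
      (univ.filter (fun σ : Perm ι => ∀ c, σ (R c) = L c)).card = N := by
    intro R L hR hL
    let e := (Fintype.equivFin B).symm
    rw [← hN (R ∘ e) (L ∘ e) (hR.comp e.injective) (hL.comp e.injective)]
    congr 1
    ext σ
    simp only [mem_filter, mem_univ, true_and, Function.comp]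
    constructor
    · intro h c; exact h (e c)
    · intro h c
      have := h (e.symm c)
      simpa using this
  refine ⟨N, hN', ?_⟩
  let H : Subgroup (Perm ι) :=
    { carrier := {σ | ∀ c, σ (R₀ c) = R₀ c}
      mul_mem' := by
        intro a b ha hb c
        rw [Perm.mul_apply, hb c, ha c]
      one_mem' := fun c => rfl
      inv_mem' := by
        intro a ha c
        rw [Perm.inv_eq_iff_eq, ha c] }
  have h1 : Nat.card H = N := by
    rw [← hN' R₀ R₀ hR₀ hR₀, Nat.card_eq_fintype_card, Fintype.card_subtype]
    congr 1
    ext σ
    simp only [mem_filter, mem_univ, true_and]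
    exact Iff.rfl
  have h2 := Subgroup.card_subgroup_dvd_card H
  rw [h1, Nat.card_eq_fintype_card, Fintype.card_perm] at h2
  exact h2

variable {K : Type*} [Field K] {τ ν : Type*} [Fintype τ] [DecidableEq τ] [Fintype ν] [DecidableEq ν]

lemma mon_mem' (u : τ → ν → K) (A : Submodule K (ν → K))
    (hτ : ((Fintype.card τ).factorial : K) ≠ 0)
    (hA : ∀ R : Finset τ, (fun j => al (wtR u R) j) ∈ A) (R : Finset τ) : mon u R ∈ A := by
  induction R using Finset.strongInduction with
  | H R ih =>
    have h1 := al_eq u R
    have h2 : lowSpan u R ≤ A := by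
      unfold lowSpan
      rw [Submodule.span_le]
      rintro f ⟨Q, hQ, rfl⟩
      exact ih Q hQ
    have h3 := A.sub_mem (hA R) (h2 h1)
    have h4 : ((-1) ^ R.card * (R.card.factorial : K)) • mon u R ∈ A := by
      have e : ((-1) ^ R.card * (R.card.factorial : K)) • mon u R = (fun j => al (wtR u R) j) -
          ((fun j => al (wtR u R) j) - ((-1) ^ R.card * (R.card.factorial : K)) • mon u R) := by
        abel
      rw [e]; exact h3
    have hc : ((-1) ^ R.card * (R.card.factorial : K)) ≠ 0 := by
      apply mul_ne_zero
      · apply pow_ne_zero; simp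
      · obtain ⟨k, hk⟩ := Nat.factorial_dvd_factorial (card_le_univ R)
        rw [hk] at hτ
        push_cast at hτ
        exact left_ne_zero_of_mul hτ
    have h5 := A.smul_mem ((-1) ^ R.card * (R.card.factorial : K))⁻¹ h4
    rwa [smul_smul, inv_mul_cancel₀ hc, one_smul] at h5

/-- the `0/1` point of a Boolean vector -/
def pt (K : Type*) [Field K] {τ : Type*} (b : τ → Bool) : τ → K := fun s => if b s then 1 else 0

lemma al_wtm_mem' (u : τ → ν → K) (A : Submodule K (ν → K))
    (hA : ∀ b : τ → Bool, (fun j => al (wtx u (pt K b)) j) ∈ A) (S : Finset τ) (b : τ → Bool) :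
    (fun j => al (wtm u (pt K b) S) j) ∈ A := by
  induction S using Finset.induction_on generalizing b with
  | empty =>
    have : wtm u (pt K b) ∅ = wtx u (pt K b) := by
      funext s o
      cases o <;> simp [wtm, wtx]
    rw [this]; exact hA b
  | insert s S hs ih =>
    have e1 : Function.update (pt K b) s 1 = pt K (Function.update b s true) := by
      funext s'
      by_cases h : s' = s
      · subst h; simp [pt]
      · simp [pt, h]
    have e0 : Function.update (pt K b) s 0 = pt K (Function.update b s false) := by
      funext s'
      by_cases h : s' = s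
      · subst h; simp [pt]
      · simp [pt, h]
    have : (fun j => al (wtm u (pt K b) (insert s S)) j)
        = (fun j => al (wtm u (pt K (Function.update b s true)) S) j)
          - (fun j => al (wtm u (pt K (Function.update b s false)) S) j) := by
      funext j
      rw [al_insert u (pt K b) S hs j, e1, e0]
      rfl
    rw [this]
    exact A.sub_mem (ih _) (ih _)

/-- The vectors `al (wtx u x)` for the `0/1` points `x` span everything. -/
theorem span_al' (hτ : ((Fintype.card τ).factorial : K) ≠ 0) (c : ν → τ → Bool)
    (hc : Function.Injective c) (A : Submodule K (ν → K))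
    (hA : ∀ b : τ → Bool, (fun j => al (wtx (fun s j => if c j s then (1 : K) else 0)
      (pt K b)) j) ∈ A) : A = ⊤ := by
  apply span_mon c hc
  apply mon_mem' _ _ hτ
  intro R
  have h := al_wtm_mem' _ A hA Rᶜ (fun _ => false)
  have : wtm (fun s j => if c j s then (1 : K) else 0) (pt K fun _ => false) Rᶜ
      = wtR (fun s j => if c j s then (1 : K) else 0) R := by
    funext s o
    cases o with
    | none =>
      by_cases hs : s ∈ R <;> simp [wtm, wtR, hs, pt]
    | some c =>
      by_cases hs : s ∈ R <;> simp [wtm, wtR, hs]
  rw [this] at h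
  exact h

/-- dual functionals -/
theorem exists_dual (hτ : ((Fintype.card τ).factorial : K) ≠ 0) (c : ν → τ → Bool)
    (hc : Function.Injective c) :
    ∃ lam : ν → (τ → Bool) → K, ∀ i j, ∑ b, lam i b *
      al (wtx (fun s j => if c j s then (1 : K) else 0) (pt K b)) j = if j = i then 1 else 0 := by
  classical
  have h := span_al' hτ c hc (Submodule.span K (Set.range fun b : τ → Bool =>
    (fun j => al (wtx (fun s j => if c j s then (1 : K) else 0) (pt K b)) j))) (by
      intro b
      exact Submodule.subset_span ⟨b, rfl⟩)
  have h1 : ∀ i : ν, ∃ l : (τ → Bool) → K, ∑ b, l b • (fun j =>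
      al (wtx (fun s j => if c j s then (1 : K) else 0) (pt K b)) j) =
        (fun j => if j = i then (1 : K) else 0) := by
    intro i
    have h2 : (fun j => if j = i then (1 : K) else 0) ∈ Submodule.span K
        (Set.range fun b : τ → Bool =>
        (fun j => al (wtx (fun s j => if c j s then (1 : K) else 0) (pt K b)) j)) := by
      rw [h]; trivial
    rwa [Submodule.mem_span_range_iff_exists_fun] at h2
  choose lam hlam using h1
  refine ⟨lam, fun i j => ?_⟩
  have := congrFun (hlam i) j
  simpa [Finset.sum_apply] using this

end Pool.Agent.Y530.BI
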